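import Pool.Agent.helper51.RMX.Spec

/-! # Row rmx:NDV (MP_24e2e7_nt): the norm on divisors -/

set_option autoImplicit false
set_option linter.unusedSectionVars false

namespace Pool.Agent.RMX

open Pool.Agent.RB NumberField IsDedekindDomain Module
open scoped nonZeroDivisors Real Classical IsMulCommutative

section aux

variable {F K : Type} [Field F] [NumberField F] [Field K] [NumberField K] [Algebra F K]

theorem NDV_mul (σ τ : K ≃ₐ[F] K) (P : HOS K) :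
    act ((σ * τ : K ≃ₐ[F] K) : K ≃+* K) P = act (σ : K ≃+* K) (act (τ : K ≃+* K) P) := by
  obtain ⟨_, _, _, _, _, _, _, h, _⟩ := ORD K
  rw [← h]
  rfl

theorem NDV_one (P : HOS K) : act ((1 : K ≃ₐ[F] K) : K ≃+* K) P = P := by
  obtain ⟨_, _, _, _, _, _, h, _, _⟩ := ORD K
  exact h P

theorem NDV_under (σ : K ≃ₐ[F] K) (P : HOS K) :
    (act (σ : K ≃+* K) P).under (𝓞 F) = P.under (𝓞 F) := by
  obtain ⟨_, _, _, _, _, _, _, _, h⟩ := ORD K
  exact h F (σ : K ≃+* K) P fun x => σ.commutes x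

theorem NDV_inv (σ : K ≃ₐ[F] K) (P : HOS K) :
    act (σ : K ≃+* K) (act ((σ⁻¹ : K ≃ₐ[F] K) : K ≃+* K) P) = P := by
  rw [← NDV_mul, mul_inv_cancel, NDV_one]

theorem NDV_inv' (σ : K ≃ₐ[F] K) (P : HOS K) :
    act ((σ⁻¹ : K ≃ₐ[F] K) : K ≃+* K) (act (σ : K ≃+* K) P) = P := by
  rw [← NDV_mul, inv_mul_cancel, NDV_one]

theorem NDV_injective (σ : K ≃ₐ[F] K) : Function.Injective (act (σ : K ≃+* K)) := by
  intro P P' h
  rw [← NDV_inv' σ P, h, NDV_inv']

theorem NDV_val (σ : K ≃ₐ[F] K) (P : HOS K) (x : K) :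
    P.valuation K (σ x) = (act ((σ⁻¹ : K ≃ₐ[F] K) : K ≃+* K) P).valuation K x := by
  obtain ⟨_, _, _, _, _, h, _, _, _⟩ := ORD K
  have h1 := (h (σ : K ≃+* K) (act ((σ⁻¹ : K ≃ₐ[F] K) : K ≃+* K) P) x).1
  rw [NDV_inv] at h1
  exact h1

theorem NDV_ord (σ : K ≃ₐ[F] K) (P : HOS K) (x : K) :
    ord P (σ x) = ord (act ((σ⁻¹ : K ≃ₐ[F] K) : K ≃+* K) P) x := by
  unfold ord
  rw [NDV_val]

theorem NDV_apply (Δ : Subgroup (K ≃ₐ[F] K)) (D : Dv K) (P : HOS K) :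
    Nd Δ D P = ∑ δ : Δ, D (act ((δ : K ≃ₐ[F] K) : K ≃+* K) P) := by
  have h1 : Nd Δ D P = ∑ δ : Δ, D (act (((δ⁻¹ : Δ) : K ≃ₐ[F] K) : K ≃+* K) P) := by
    unfold Nd
    rw [AddMonoidHom.finsetSum_apply, Finsupp.finsetSum_apply]
    refine Finset.sum_congr rfl fun δ _ => ?_
    show (Finsupp.mapDomain (act ((δ : K ≃ₐ[F] K) : K ≃+* K)) D) P = _
    have h2 := Finsupp.mapDomain_apply (NDV_injective (δ : K ≃ₐ[F] K)) D
      (act (((δ : K ≃ₐ[F] K)⁻¹ : K ≃ₐ[F] K) : K ≃+* K) P)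
    rw [NDV_inv] at h2
    rw [h2]
    rfl
  rw [h1]
  exact Fintype.sum_equiv (Equiv.inv Δ) _ _ fun δ => rfl

theorem NDV_prod_ord {ι : Type} (s : Finset ι) (P : HOS K) (f : ι → K) (hf : ∀ i ∈ s, f i ≠ 0) :
    ord P (∏ i ∈ s, f i) = ∑ i ∈ s, ord P (f i) := by
  induction s using Finset.induction_on with
  | empty => simp [ord_one]
  | @insert a s ha ih =>
    rw [Finset.prod_insert ha, Finset.sum_insert ha, ord_mul P (hf a (Finset.mem_insert_self a s))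
      (Finset.prod_ne_zero_iff.2 fun i hi => hf i (Finset.mem_insert_of_mem hi)),
      ih fun i hi => hf i (Finset.mem_insert_of_mem hi)]

end aux

theorem NDV : NDV_stmt := by
  intro F K _ _ _ _ _ _ Δ
  refine ⟨fun D P => NDV_apply Δ D P, ?_, ?_, ?_⟩
  · intro D
    ext P
    rw [NDV_apply, Finsupp.smul_apply]
    have h1 : ∀ δ : Δ, Nd Δ D (act ((δ : K ≃ₐ[F] K) : K ≃+* K) P) = Nd Δ D P := by
      intro δ
      rw [NDV_apply, NDV_apply]
      refine Fintype.sum_equiv (Equiv.mulRight δ) _ _ fun δ' => ?_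
      rw [← NDV_mul]
      rfl
    simp only [h1]
    rw [Finset.sum_const, Finset.card_univ, Nat.card_eq_fintype_card]
  · intro D x hx hD P
    rw [NDV_apply, NDV_prod_ord]
    · refine Fintype.sum_equiv (Equiv.inv Δ) _ _ fun δ => ?_
      rw [hD]
      have h1 := NDV_ord (((δ⁻¹ : Δ) : K ≃ₐ[F] K)) P x
      simp only [Equiv.inv_apply]
      rw [h1]
      have e : (((δ⁻¹ : Δ) : K ≃ₐ[F] K)⁻¹ : K ≃ₐ[F] K) = (δ : K ≃ₐ[F] K) := by
        rw [Subgroup.coe_inv, inv_inv]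
      rw [e]
    · intro δ _
      exact (map_ne_zero_iff _ ((δ : K ≃ₐ[F] K)).injective).2 hx
  · intro c V T
    have hcomm : ∀ (δ : K ≃ₐ[F] K) (P : HOS K), act (δ : K ≃+* K) (act (c : K ≃+* K) P) =
        act (c : K ≃+* K) (act (δ : K ≃+* K) P) := by
      intro δ P
      rw [← NDV_mul, ← NDV_mul, mul_comm]
    constructor
    · rintro D ⟨hD1, hD2⟩
      refine ⟨fun P hP => ?_, fun P => ?_⟩
      · rw [NDV_apply]
        refine Finset.sum_eq_zero fun δ _ => hD1 _ fun h => hP ?_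
        have h2 : (act ((δ : K ≃ₐ[F] K) : K ≃+* K) P).under (𝓞 F) ∈ V := h
        rw [NDV_under] at h2
        exact h2
      · rw [NDV_apply, NDV_apply, ← Finset.sum_neg_distrib]
        refine Finset.sum_congr rfl fun δ _ => ?_
        rw [hcomm, hD2]
    · rintro D ⟨x, hx, hD⟩
      obtain ⟨hx1, hx2, hx3⟩ := hx
      have hmem : ∀ δ : Δ, Units.map ((δ : K ≃ₐ[F] K) : K →* K) x ∈
          Ml (c : K ≃+* K) {P : HOS K | P.under (𝓞 F) ∈ V} {P : HOS K | P.under (𝓞 F) ∈ T} := by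
        intro δ
        refine ⟨?_, fun P hP => ?_, fun P hP => ?_⟩
        · show (δ : K ≃ₐ[F] K) (x : K) * c ((δ : K ≃ₐ[F] K) (x : K)) = 1
          have h1 : c ((δ : K ≃ₐ[F] K) (x : K)) = (δ : K ≃ₐ[F] K) (c (x : K)) := by
            have h2 : (c * (δ : K ≃ₐ[F] K)) (x : K) = ((δ : K ≃ₐ[F] K) * c) (x : K) := by
              rw [mul_comm]
            exact h2
          rw [h1, ← map_mul]
          have h3 : (x : K) * c (x : K) = 1 := hx1
          rw [h3, map_one]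
        · show ord P ((δ : K ≃ₐ[F] K) (x : K)) = 0
          rw [NDV_ord]
          refine hx2 _ fun h => hP ?_
          have h2 : (act (((δ : K ≃ₐ[F] K)⁻¹ : K ≃ₐ[F] K) : K ≃+* K) P).under (𝓞 F) ∈ V := h
          rw [NDV_under] at h2
          exact h2
        · show P.valuation K ((δ : K ≃ₐ[F] K) (x : K) - 1) < 1
          have h1 : (δ : K ≃ₐ[F] K) (x : K) - 1 = (δ : K ≃ₐ[F] K) ((x : K) - 1) := by
            rw [map_sub, map_one]
          rw [h1, NDV_val]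
          refine hx3 _ ?_
          show (act (((δ : K ≃ₐ[F] K)⁻¹ : K ≃ₐ[F] K) : K ≃+* K) P).under (𝓞 F) ∈ T
          rw [NDV_under]
          exact hP
      refine ⟨∏ δ : Δ, Units.map ((δ : K ≃ₐ[F] K) : K →* K) x,
        Subgroup.prod_mem _ fun δ _ => hmem δ, fun P => ?_⟩
      rw [Units.coe_prod]
      have hx0 : (x : K) ≠ 0 := x.ne_zero
      rw [NDV_apply, NDV_prod_ord]
      · refine Fintype.sum_equiv (Equiv.inv Δ) _ _ fun δ => ?_
        rw [hD]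
        have h1 := NDV_ord (((δ⁻¹ : Δ) : K ≃ₐ[F] K)) P (x : K)
        simp only [Equiv.inv_apply]
        have h4 : ((Units.map (((δ⁻¹ : Δ) : K ≃ₐ[F] K) : K →* K) x : Kˣ) : K) =
            ((δ⁻¹ : Δ) : K ≃ₐ[F] K) (x : K) := rfl
        rw [h4, h1]
        have e : (((δ⁻¹ : Δ) : K ≃ₐ[F] K)⁻¹ : K ≃ₐ[F] K) = (δ : K ≃ₐ[F] K) := by
          rw [Subgroup.coe_inv, inv_inv]
        rw [e]
      · intro δ _
        exact Units.ne_zero _

end Pool.Agent.RMX
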