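import Pool.Agent.helper51.RMX.Spec

/-! # Row rmx:RMK (MP_24e2e7_nt): ramified primes -/

set_option autoImplicit false
set_option linter.unusedSectionVars false

namespace Pool.Agent.RMX

open Pool.Agent.RB NumberField IsDedekindDomain Module
open scoped nonZeroDivisors Real Classical IsMulCommutative

section aux

variable {k K : Type} [Field k] [NumberField k] [Field K] [NumberField K] [Algebra k K]
    [Algebra.IsQuadraticExtension k K]

theorem RMK_mem {K : Type} [Field K] [NumberField K] (P : HOS K) (x : 𝓞 K) : P.valuation K (x : K) < 1 ↔ x ∈ P.asIdeal := by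
  exact HeightOneSpectrum.valuation_lt_one_iff_mem P x

theorem RMK_act {K : Type} [Field K] [NumberField K] (c : K ≃+* K) (P : HOS K) (x : K) :
    (act c P).valuation K (c x) = P.valuation K x := ((ORD K).2.2.2.2.2.1 c P x).1

/-- a prime in `Rm c` is fixed by `c` -/
theorem RMK_fixed {K : Type} [Field K] [NumberField K] (c : K ≃+* K) (P : HOS K) (hP : P ∈ Rm c) : act c P = P := by
  have h1 : (act c P).asIdeal ≤ P.asIdeal := by
    intro y hy
    rw [← RMK_mem] at hy ⊢
    have h2 : c ((RingOfIntegers.mapRingEquiv c).symm y : 𝓞 K) = (y : K) := by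
      have : RingOfIntegers.mapRingEquiv c ((RingOfIntegers.mapRingEquiv c).symm y) = y :=
        RingEquiv.apply_symm_apply _ _
      exact congrArg (fun z : 𝓞 K => (z : K)) this
    set x : 𝓞 K := (RingOfIntegers.mapRingEquiv c).symm y with hx
    have h3 : P.valuation K (x : K) < 1 := by
      rw [← RMK_act c, h2]
      exact hy
    have h4 := hP x
    rw [h2] at h4
    have h5 : (y : K) = ((y : K) - (x : K)) + (x : K) := by ring
    rw [h5]
    exact (Valuation.map_add _ _ _).trans_lt (max_lt h4 h3)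
  apply HeightOneSpectrum.ext
  exact ((act c P).isMaximal.eq_of_le P.isPrime.ne_top h1)

/-- if the residue fields agree, every integer of `K` is congruent to an integer of `k` -/
theorem RMK_onto (q : HOS k) (P : HOS K) (hP : P.under (𝓞 k) = q) (hn : nm P = nm q) (x : 𝓞 K) :
    ∃ a : 𝓞 k, x - algebraMap (𝓞 k) (𝓞 K) a ∈ P.asIdeal := by
  have hle : q.asIdeal ≤ Ideal.comap (algebraMap (𝓞 k) (𝓞 K)) P.asIdeal := by
    rw [← hP]
    exact le_rfl
  have hge : Ideal.comap (algebraMap (𝓞 k) (𝓞 K)) P.asIdeal ≤ q.asIdeal := by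
    rw [← hP]
    exact le_rfl
  have hinj : Function.Injective (Ideal.quotientMap P.asIdeal (algebraMap (𝓞 k) (𝓞 K)) hle) :=
    Ideal.quotientMap_injective' hge
  have hfin : Finite (𝓞 K ⧸ P.asIdeal) := Nat.finite_of_card_ne_zero (by
    rw [RES_card]
    have := RES_two_le P
    omega)
  have hbij := hinj.bijective_of_nat_card_le (by
    rw [RES_card, RES_card, hn])
  obtain ⟨z, hz⟩ := hbij.2 (Ideal.Quotient.mk P.asIdeal x)
  obtain ⟨a, rfl⟩ := Ideal.Quotient.mk_surjective z
  refine ⟨a, ?_⟩
  rw [Ideal.quotientMap_mk] at hz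
  rw [← Ideal.Quotient.eq]
  exact hz.symm

end aux

theorem RMK : RMK_stmt := by
  intro k K _ _ _ _ _ _ c hc hck
  set c' : K ≃ₐ[k] K := AlgEquiv.ofRingEquiv (f := c) hck with hc'def
  have hcc : (c' : K ≃+* K) = c := rfl
  have hc' : c' ≠ 1 := by
    intro h
    apply hc
    apply RingEquiv.ext
    intro x
    exact congrArg (fun f : K ≃ₐ[k] K => f x) h
  have h1 : ∀ P : HOS K, P ∈ Rm c ↔ ty K (P.under (𝓞 k)) = 0 := by
    intro P
    have hPm : P ∈ {R : HOS K | R.under (𝓞 k) = P.under (𝓞 k)} := rfl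
    rcases TYP k K c' hc' (P.under (𝓞 k)) with
      ⟨ht, A, B, hAB, hf, _, _, hA, hB, _⟩ | ⟨ht, A, hf, hn, _, _⟩ | ⟨ht, A, hf, hn, hA, _⟩
    · rw [ht]
      refine ⟨fun h => ?_, fun h => absurd h (by norm_num)⟩
      exfalso
      have h2 := RMK_fixed c P h
      rw [hcc] at hA hB
      rw [hf] at hPm
      rcases hPm with h3 | h3
      · rw [h3, hA] at h2
        exact hAB h2.symm
      · have h4 : P = B := h3
        rw [h4, hB] at h2
        exact hAB h2
    · rw [ht]
      refine ⟨fun h => ?_, fun h => absurd h (by norm_num)⟩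
      exfalso
      rw [hf] at hPm
      have h4 : P = A := hPm
      rw [← h4] at hn
      have h5 : ∀ y : 𝓞 K ⧸ P.asIdeal, y ^ nm (P.under (𝓞 k)) = y := by
        intro y
        obtain ⟨a, rfl⟩ := Ideal.Quotient.mk_surjective y
        rw [← RES_frob (P.under (𝓞 k)) P rfl hn c' hc' a, Ideal.Quotient.eq, ← RMK_mem]
        exact h a
      have h6 := RES_small P _ (RES_two_le (P.under (𝓞 k))) h5
      have h7 := RES_two_le (P.under (𝓞 k))
      rw [hn] at h6
      nlinarith
    · rw [ht]
      refine ⟨fun _ => rfl, fun _ x => ?_⟩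
      rw [hf] at hPm
      have h4 : P = A := hPm
      rw [← h4] at hn hA
      rw [hcc] at hA
      obtain ⟨a, ha⟩ := RMK_onto (P.under (𝓞 k)) P rfl hn x
      rw [← RMK_mem] at ha
      have e1 : (((x - algebraMap (𝓞 k) (𝓞 K) a : 𝓞 K)) : K) = (x : K) - algebraMap k K (a : k) := by
        rfl
      rw [e1] at ha
      have h5 : P.valuation K (c ((x : K) - algebraMap k K (a : k))) < 1 := by
        have h6 := RMK_act c P ((x : K) - algebraMap k K (a : k))
        rw [hA] at h6
        rw [h6]
        exact ha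
      have e2 : c (x : K) - (x : K) = c ((x : K) - algebraMap k K (a : k)) -
          ((x : K) - algebraMap k K (a : k)) := by
        rw [map_sub, hck]
        ring
      rw [e2]
      exact (Valuation.map_sub _ _ _).trans_lt (max_lt h5 ha)
  -- the bijection
  have himg : (fun P : HOS K => P.under (𝓞 k)) '' Rm c = {q : HOS k | ty K q = 0} := by
    ext q
    constructor
    · rintro ⟨P, hP, rfl⟩
      exact (h1 P).1 hP
    · intro hq
      obtain ⟨⟨P, hP⟩, _⟩ := AM1_ex TYP c hc hck q
      refine ⟨P, (h1 P).2 ?_, hP⟩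
      rw [hP]
      exact hq
  have hinj : Set.InjOn (fun P : HOS K => P.under (𝓞 k)) (Rm c) := by
    intro P hP P' hP' h
    have h' : P.under (𝓞 k) = P'.under (𝓞 k) := h
    have hPm : P ∈ {R : HOS K | R.under (𝓞 k) = P.under (𝓞 k)} := rfl
    have hPm' : P' ∈ {R : HOS K | R.under (𝓞 k) = P.under (𝓞 k)} := h'.symm
    have h0 := (h1 P).1 hP
    rcases TYP k K c' hc' (P.under (𝓞 k)) with
      ⟨ht, _⟩ | ⟨ht, _⟩ | ⟨_, A, hf, _⟩
    · rw [h0] at ht
      exact absurd ht (by norm_num)
    · rw [h0] at ht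
      exact absurd ht (by norm_num)
    · rw [hf] at hPm hPm'
      have e1 : P = A := hPm
      have e2 : P' = A := hPm'
      rw [e1, e2]
  refine ⟨h1, ?_, ?_⟩
  · rw [← himg]
    exact (Set.ncard_image_of_injOn hinj).symm
  · refine Set.Finite.of_finite_image ?_ hinj
    rw [himg]
    exact (AM1 ORD TYP k K c hc hck).2.1

end Pool.Agent.RMX
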